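import Pool.Agent.K3h88.VR.Stm

/-!
# Random linear maps (brick MAPS)
-/

set_option autoImplicit false

namespace Pool.Agent.K3h67.VR

open Pool.Agent.K3h88.VR

theorem card_hom (n m : ℕ) : Nat.card (E n →ₗ[ZMod 2] E m) = 2 ^ (m * n) := by
  rw [Module.natCard_eq_pow_finrank (K := ZMod 2), Module.finrank_linearMap,
    Module.finrank_fin_fun, Module.finrank_fin_fun, Nat.card_zmod, mul_comm]

/-- **MAPS** -/
theorem t_MAPS (h1 : S_SUB) (h2 : S_RANK) : S_MAPS := by
  intro n m d ρ k hρm hρd hdn hlt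
  classical
  by_contra hcon
  push Not at hcon
  choose V hV hVi using hcon
  have hfinH : Finite (E n →ₗ[ZMod 2] E m) := Module.finite_of_finite (ZMod 2)
  have hfinS : Finite (Submodule (ZMod 2) (E n)) := inferInstance
  let X := {V : Submodule (ZMod 2) (E n) // Module.finrank (ZMod 2) V = d}
  let S : X → Type := fun V =>
    {φ : E n →ₗ[ZMod 2] E m // Module.finrank (ZMod 2) (V.1.map φ) ≤ ρ}
  have hX : Fintype X := Fintype.ofFinite X
  have hS : ∀ x : X, Finite (S x) := fun x => inferInstanceAs (Finite {φ : E n →ₗ[ZMod 2] E m //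
    Module.finrank (ZMod 2) (x.1.map φ) ≤ ρ})
  have hcard : Nat.card (Fin k → (E n →ₗ[ZMod 2] E m)) ≤ Nat.card (Σ x : X, (Fin k → S x)) := by
    apply Nat.card_le_card_of_injective
      (fun Φ => (⟨⟨V Φ, hV Φ⟩, fun i => ⟨Φ i, hVi Φ i⟩⟩ : Σ x : X, (Fin k → S x)))
    apply Function.LeftInverse.injective
      (g := fun t : (Σ x : X, (Fin k → S x)) => fun i => (t.2 i).1)
    intro Φ
    rfl
  have e1 : Nat.card (Fin k → (E n →ₗ[ZMod 2] E m)) = (2 ^ (m * n)) ^ k := by
    rw [Nat.card_pi, Finset.prod_const, Finset.card_univ, Fintype.card_fin, card_hom]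
  have e2 : Nat.card (Σ x : X, (Fin k → S x)) = ∑ x : X, Nat.card (S x) ^ k := by
    rw [Nat.card_sigma]
    refine Finset.sum_congr rfl fun x _ => ?_
    rw [Nat.card_pi, Finset.prod_const, Finset.card_univ, Fintype.card_fin]
  rw [e1, e2] at hcard
  have e3 : (∑ x : X, Nat.card (S x) ^ k) * (2 ^ ((d - ρ) * (m - ρ))) ^ k ≤
      2 ^ (n + d * (n - d)) * (2 ^ (m * n + m)) ^ k := by
    rw [Finset.sum_mul]
    calc ∑ x : X, Nat.card (S x) ^ k * (2 ^ ((d - ρ) * (m - ρ))) ^ k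
        ≤ ∑ _x : X, (2 ^ (m * n + m)) ^ k := by
          refine Finset.sum_le_sum fun x _ => ?_
          rw [← mul_pow]
          exact Nat.pow_le_pow_left (h2 n m d ρ x.1 hρm hρd hdn x.2) k
      _ = Nat.card X * (2 ^ (m * n + m)) ^ k := by
          rw [Finset.sum_const, Finset.card_univ, smul_eq_mul, Nat.card_eq_fintype_card]
      _ ≤ 2 ^ (n + d * (n - d)) * (2 ^ (m * n + m)) ^ k :=
          Nat.mul_le_mul_right _ (h1 n d)
  have e4 : (2 ^ (m * n)) ^ k * (2 ^ ((d - ρ) * (m - ρ))) ^ k ≤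
      2 ^ (n + d * (n - d)) * (2 ^ (m * n + m)) ^ k :=
    (Nat.mul_le_mul_right _ hcard).trans e3
  rw [← pow_mul, ← pow_mul, ← pow_mul, ← pow_add, ← pow_add] at e4
  have e5 := (Nat.pow_le_pow_iff_right (by norm_num : 1 < 2)).1 e4
  have e6 : m * n * k + (d - ρ) * (m - ρ) * k ≤ n + d * (n - d) + (m * n * k + m * k) := by
    calc m * n * k + (d - ρ) * (m - ρ) * k ≤ n + d * (n - d) + (m * n + m) * k := e5
      _ = n + d * (n - d) + (m * n * k + m * k) := by ring
  have e7 : k * ((d - ρ) * (m - ρ)) = (d - ρ) * (m - ρ) * k := mul_comm _ _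
  have e8 : k * m = m * k := mul_comm _ _
  omega

end Pool.Agent.K3h67.VR
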